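import Pool.Agent.Lib.MP_e34d70_pr.Exi

/-!
The equation `X_t = B_t + φ (L_t)`, where `L` is the symmetric local time of `X` at `0`, has a
unique strong solution if and only if `φ` is Lipschitz with constant one. If `φ` is not Lipschitz
with constant one then there is no solution at all.

All definitions used in the statement are in `Pool/Agent/Lib/MP_e34d70_pr/Defs.lean`.
-/

open MeasureTheory ProbabilityTheory Pool.Agent.SkewBM
open scoped NNReal

universe u

theorem Pool.Agent.Results.MP_e34d70_pr.LipschitzChar.result {Ω : Type u}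
    {m : MeasurableSpace Ω} (P : Measure Ω) [IsProbabilityMeasure P] [P.IsComplete]
    (B : ℝ≥0 → Ω → ℝ) (hm : ∀ t, Measurable (B t)) (hB : IsBrownianReal B P) (φ : ℝ≥0 → ℝ) :
    List.TFAE [
      HasStrongSolution P B hm φ ∧ PathwiseUnique.{u} φ,
      HasSolution.{u} φ,
      ∀ s t : ℝ≥0, |φ s - φ t| ≤ |(s : ℝ) - t|] :=
  main P B hm hB φ
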